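import Pool.Agent.V5helper35.CA.Stm2

/-!
# Project CA, jobs CORE and UNQ
-/

set_option autoImplicit false

namespace Pool.Agent.V5helper72.CA

open Pool.Agent.V5helper35.CA NC

section
variable {R : Type} [CommRing R] {n : ℕ}

/-- the normal subgroup of the words with trivial truncated expansion -/
def K0 (R : Type) [CommRing R] (n c : ℕ) : Subgroup (FreeGroup (Fin n)) where
  carrier := {w | Eqd c (mag R w) 1}
  one_mem' := by
    show Eqd c (mag R 1) 1
    rw [map_one]
    exact Eqd.refl _ _
  mul_mem' := by
    intro a b ha hb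
    show Eqd c (mag R (a * b)) 1
    rw [map_mul]
    have := Eqd.mul ha hb
    rwa [mul_one] at this
  inv_mem' := by
    intro a ha
    show Eqd c (mag R a⁻¹) 1
    have h1 := Eqd.mul (Eqd.refl c (mag R a⁻¹)) ha
    rw [mag_inv_mul, mul_one] at h1
    exact h1.symm

theorem mem_K0 {c : ℕ} {w : FreeGroup (Fin n)} : w ∈ K0 R n c ↔ Eqd c (mag R w) 1 := Iff.rfl

instance K0_normal (c : ℕ) : (K0 R n c).Normal := ⟨by
  intro w hw g
  show Eqd c (mag R (g * w * g⁻¹)) 1
  rw [map_mul, map_mul]
  have h1 := Eqd.mul (Eqd.mul (Eqd.refl c (mag R g)) hw) (Eqd.refl c (mag R g⁻¹))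
  rwa [mul_one, mag_mul_inv] at h1⟩

theorem K0_finite (m : ℕ) (hm : 0 < m) (c : ℕ) :
    Finite (FreeGroup (Fin n) ⧸ K0 (ZMod m) n c) := by
  have : NeZero m := ⟨hm.ne'⟩
  have hfin : Finite {v : List (Fin n) // v.length ≤ c} := (List.finite_length_le (Fin n) c).to_subtype
  refine Finite.of_injective (β := {v : List (Fin n) // v.length ≤ c} → ZMod m)
    (fun q => fun v => mag (ZMod m) q.out v.1) ?_
  intro q q' h
  have h1 : Eqd c (mag (ZMod m) q.out) (mag (ZMod m) q'.out) := fun v hv => congrFun h ⟨v, hv⟩
  have h2 : q.out⁻¹ * q'.out ∈ K0 (ZMod m) n c := by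
    show Eqd c (mag (ZMod m) (q.out⁻¹ * q'.out)) 1
    rw [map_mul]
    have h3 := Eqd.mul (Eqd.refl c (mag (ZMod m) q.out⁻¹)) h1.symm
    rwa [mag_inv_mul] at h3
  have h4 := QuotientGroup.eq.2 h2
  rwa [QuotientGroup.out_eq', QuotientGroup.out_eq'] at h4

/-- **CORE** -/
theorem t_CORE : S_CORE := by
  intro n c m hm
  have hfq := K0_finite (n := n) m hm c
  have hhom : Finite (FreeGroup (Fin n) →* (FreeGroup (Fin n) ⧸ K0 (ZMod m) n c)) :=
    Finite.of_equiv _ (FreeGroup.lift (α := Fin n) (β := FreeGroup (Fin n) ⧸ K0 (ZMod m) n c))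
  refine ⟨⨅ f : FreeGroup (Fin n) →* (FreeGroup (Fin n) ⧸ K0 (ZMod m) n c), f.ker, ?_, ?_, ?_⟩
  · rw [Subgroup.characteristic_iff_le_comap]
    intro φ w hw
    rw [Subgroup.mem_comap, Subgroup.mem_iInf]
    intro f
    rw [Subgroup.mem_iInf] at hw
    exact hw (f.comp φ.toMonoidHom)
  · refine Subgroup.finiteIndex_iInf fun f => ?_
    exact Subgroup.finiteIndex_ker f
  · intro w hw
    rw [Subgroup.mem_iInf] at hw
    have h1 := hw (QuotientGroup.mk' (K0 (ZMod m) n c))
    rw [QuotientGroup.ker_mk'] at h1
    exact h1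

/-- orders of vanishing add up -/
theorem mul_vanish {a b : ℕ} {f g : NC R n} (hf : Eqd a f 0) (hg : Eqd b g 0) :
    Eqd (a + b + 1) (f * g) 0 := by
  induction a generalizing f with
  | zero =>
    intro w hw
    have h0 : f [] = 0 := hf [] (Nat.zero_le _)
    cases w with
    | nil => rw [mul_nil, h0, zero_mul]; rfl
    | cons i w =>
      rw [List.length_cons] at hw
      rw [mul_cons, h0, zero_mul, zero_add, mul_top_right hg w (by omega), hg w (by omega)]
      simp
  | succ a ih =>
    intro w hw
    have h0 : f [] = 0 := hf [] (Nat.zero_le _)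
    cases w with
    | nil => rw [mul_nil, h0, zero_mul]; rfl
    | cons i w =>
      rw [List.length_cons] at hw
      rw [mul_cons, h0, zero_mul, zero_add]
      have h1 : Eqd a (der i f) 0 := fun u hu => hf (i :: u) (by rw [List.length_cons]; omega)
      exact (ih h1) w (by omega)

end

/-- **UNQ** -/
theorem t_UNQ : S_UNQ := by
  intro R _ n hn c α h h' hα h0 h1 h2
  have hnt : Nontrivial (Fin n) := Fin.nontrivial_iff_two_le.2 hn
  have key : ∀ d : ℕ, d ≤ c - 1 → Eqd d (h - h') 0 := by
    intro d
    induction d with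
    | zero =>
      intro _ w hw
      have hw0 : w = [] := List.eq_nil_of_length_eq_zero (by omega)
      subst hw0
      rw [NC.sub_apply, h0, sub_self]; rfl
    | succ d ih =>
      intro hd w hw
      have hu := ih (by omega)
      rcases Nat.lt_or_ge w.length (d + 1) with hlt | hge
      · exact hu w (by omega)
      cases w with
      | nil => exact hu [] (Nat.zero_le _)
      | cons j w =>
        rw [List.length_cons] at hw hge
        obtain ⟨i, hi⟩ := exists_ne j
        -- the relation for the difference
        have hrel : Eqd c (mag R (α (FreeGroup.of i)) * (h - h')) ((h - h') * mag R (FreeGroup.of i)) := by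
          rw [mul_sub, sub_mul]
          exact Eqd.sub (h1 i) (h2 i)
        have hr : Eqd 1 (mag R (α (FreeGroup.of i)) - (1 + X i)) 0 := by
          intro v hv
          cases v with
          | nil => rw [NC.sub_apply, mag_nil, NC.add_apply, one_nil, X_nil, add_zero, sub_self]; rfl
          | cons k v =>
            rw [List.length_cons] at hv
            have hv0 : v = [] := List.eq_nil_of_length_eq_zero (by omega)
            subst hv0
            rw [NC.sub_apply, hα, NC.add_apply, one_cons, X_cons, one_nil, zero_add, sub_self]; rfl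
        have e1 : mag R (α (FreeGroup.of i)) * (h - h') =
            (h - h') + X i * (h - h') + (mag R (α (FreeGroup.of i)) - (1 + X i)) * (h - h') := by
          noncomm_ring
        have h3 := hrel (j :: w ++ [i]) (by simp; omega)
        rw [e1, NC.add_apply, NC.add_apply, mag_of, mul_add, mul_one, NC.add_apply, mul_X_append, if_pos rfl,
          List.cons_append, X_mul_cons, if_neg (Ne.symm hi), add_zero,
          mul_vanish hr hu _ (by simp; omega)] at h3
        have h4 : (h - h' : NC R n) (j :: w) = 0 := by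
          have h5 := h3
          rw [NC.zero_apply, add_zero] at h5
          exact (left_eq_add.1 h5)
        rw [h4]; rfl
  intro w hw
  have h3 := key (c - 1) le_rfl w hw
  rw [NC.sub_apply, NC.zero_apply, sub_eq_zero] at h3
  exact h3

end Pool.Agent.V5helper72.CA
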