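import Pool.Agent.V5helper35.CA.Stm1

/-!
# Project CA, job UNI: unipotent commuting integer matrices
-/

set_option autoImplicit false

namespace Pool.Agent.V5helper72.CA

open Pool.Agent.V5helper35.CA

/-- torsion in quotients of finitely generated groups -/
theorem lat {M : Type*} [AddCommGroup M] (H B : AddSubgroup M) [Module.Finite ℤ H] :
    ∃ e : ℕ, 0 < e ∧ ∀ x ∈ H, ∀ k : ℕ, 0 < k → k • x ∈ B → e • x ∈ B := by
  have : Module.Finite ℤ (H ⧸ B.addSubgroupOf H) :=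
    Module.Finite.of_surjective (QuotientAddGroup.mk' (B.addSubgroupOf H)).toIntLinearMap
      (QuotientAddGroup.mk'_surjective _)
  have hT : Finite (Submodule.torsion ℤ (H ⧸ B.addSubgroupOf H)) :=
    Module.finite_of_fg_torsion _ (Submodule.torsion_isTorsion)
  refine ⟨Nat.card (Submodule.torsion ℤ (H ⧸ B.addSubgroupOf H)), Nat.card_pos, ?_⟩
  intro x hx k hk hkx
  have h1 : (k : ℤ) • (QuotientAddGroup.mk (⟨x, hx⟩ : H) : H ⧸ B.addSubgroupOf H) = 0 := by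
    rw [natCast_zsmul, ← QuotientAddGroup.mk_nsmul, QuotientAddGroup.eq_zero_iff,
      AddSubgroup.mem_addSubgroupOf]
    simpa using hkx
  have h2 : (QuotientAddGroup.mk (⟨x, hx⟩ : H) : H ⧸ B.addSubgroupOf H) ∈
      Submodule.torsion ℤ (H ⧸ B.addSubgroupOf H) := by
    rw [Submodule.mem_torsion_iff]
    refine ⟨⟨(k : ℤ), mem_nonZeroDivisors_of_ne_zero (by exact_mod_cast hk.ne')⟩, ?_⟩
    exact h1
  have h3 := card_nsmul_eq_zero' (G := Submodule.torsion ℤ (H ⧸ B.addSubgroupOf H)) (x := ⟨_, h2⟩)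
  have h4 : Nat.card (Submodule.torsion ℤ (H ⧸ B.addSubgroupOf H)) •
      (QuotientAddGroup.mk (⟨x, hx⟩ : H) : H ⧸ B.addSubgroupOf H) = 0 := congrArg Subtype.val h3
  rw [← QuotientAddGroup.mk_nsmul, QuotientAddGroup.eq_zero_iff,
    AddSubgroup.mem_addSubgroupOf] at h4
  simpa using h4

section
variable {S : Type*} [CommRing S] {A : Type*} [CommGroup A] (θ : A →* S)

/-- the elements congruent to one modulo an ideal -/
def Dg (J : Ideal S) : Subgroup A where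
  carrier := {a | θ a - 1 ∈ J}
  one_mem' := by simp
  mul_mem' := by
    intro a b ha hb
    have e : θ (a * b) - 1 = (θ a - 1) * θ b + (θ b - 1) := by rw [map_mul]; ring
    show θ (a * b) - 1 ∈ J
    rw [e]
    exact J.add_mem (J.mul_mem_right _ ha) hb
  inv_mem' := by
    intro a ha
    have h1 : θ a * θ a⁻¹ = 1 := by rw [← map_mul, mul_inv_cancel, map_one]
    have e : θ a⁻¹ - 1 = (θ a - 1) * (-θ a⁻¹) := by linear_combination h1
    show θ a⁻¹ - 1 ∈ J
    rw [e]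
    exact J.mul_mem_right _ ha

theorem mem_Dg {J : Ideal S} {a : A} : a ∈ Dg θ J ↔ θ a - 1 ∈ J := Iff.rfl

theorem fin_order (O : Subring S) [Module.Finite ℤ O] (hO : ∀ a, θ a ∈ O) (N : ℕ) (hN : 0 < N) :
    ∃ k : ℕ, 0 < k ∧ ∀ a, ∃ x ∈ O, θ a ^ k - 1 = (N : S) * x := by
  have h1 : Module.Finite ℤ (O ⧸ Ideal.span {(N : O)}) :=
    Module.Finite.of_surjective (Ideal.Quotient.mk (Ideal.span {(N : O)})).toAddMonoidHom.toIntLinearMap
      Ideal.Quotient.mk_surjective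
  have h2 : Finite (O ⧸ Ideal.span {(N : O)}) := by
    refine Module.finite_of_fg_torsion _ ?_
    intro x
    refine ⟨⟨(N : ℤ), mem_nonZeroDivisors_of_ne_zero (by exact_mod_cast hN.ne')⟩, ?_⟩
    obtain ⟨y, rfl⟩ := Ideal.Quotient.mk_surjective x
    show (N : ℤ) • (Ideal.Quotient.mk _ y) = 0
    rw [natCast_zsmul, nsmul_eq_mul, ← map_natCast (Ideal.Quotient.mk (Ideal.span {(N : O)})), ← map_mul,
      Ideal.Quotient.eq_zero_iff_mem]
    exact Ideal.mul_mem_right _ _ (Ideal.mem_span_singleton_self _)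
  let ψ : A →* (O ⧸ Ideal.span {(N : O)}) :=
    (Ideal.Quotient.mk (Ideal.span {(N : O)})).toMonoidHom.comp
      { toFun := fun a => (⟨θ a, hO a⟩ : O)
        map_one' := by ext; simp
        map_mul' := fun a b => by ext; simp }
  refine ⟨Nat.card (O ⧸ Ideal.span {(N : O)})ˣ, Nat.card_pos, fun a => ?_⟩
  have h3 : (ψ.toHomUnits a) ^ Nat.card (O ⧸ Ideal.span {(N : O)})ˣ = 1 := pow_card_eq_one'
  have h4 := congrArg Units.val h3
  rw [Units.val_pow_eq_pow_val, Units.val_one] at h4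
  have h5 : (Ideal.Quotient.mk (Ideal.span {(N : O)})) ((⟨θ a, hO a⟩ : O) ^
      Nat.card (O ⧸ Ideal.span {(N : O)})ˣ - 1) = 0 := by
    rw [map_sub, map_pow, map_one, sub_eq_zero]
    exact h4
  rw [Ideal.Quotient.eq_zero_iff_mem, Ideal.mem_span_singleton] at h5
  obtain ⟨y, hy⟩ := h5
  refine ⟨y.1, y.2, ?_⟩
  have h6 := congrArg Subtype.val hy
  simpa using h6

theorem pow_cong (I : Ideal S) (hI : ∀ a, θ a - 1 ∈ I) (i : ℕ) {b : A} (hb : θ b - 1 ∈ I ^ i)
    (q : ℕ) : θ (b ^ q) - 1 - (q : S) * (θ b - 1) ∈ I ^ (i + 1) := by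
  induction q with
  | zero => simp
  | succ q ih =>
    have e : θ (b ^ (q + 1)) - 1 - ((q + 1 : ℕ) : S) * (θ b - 1) =
        (θ (b ^ q) - 1 - (q : S) * (θ b - 1)) + (θ b - 1) * (θ (b ^ q) - 1) := by
      rw [pow_succ, map_mul]
      push_cast
      ring
    rw [e]
    refine (I ^ (i + 1)).add_mem ih ?_
    rw [pow_succ]
    exact Ideal.mul_mem_mul hb (hI _)

end

section
variable {S : Type*} [CommRing S] {A : Type*} [CommGroup A] (θ : A →* S)

theorem step (O : Subring S) [Module.Finite ℤ O] (hO : ∀ a, θ a ∈ O) (I : Ideal S)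
    (hI : ∀ a, θ a - 1 ∈ I) (m : ℕ) (hm : 0 < m) (i : ℕ)
    (h : ∃ N : ℕ, 0 < N ∧ ∀ a, θ a - 1 ∈ I ^ (i + 1) → (∃ x ∈ O, θ a - 1 = (N : S) * x) →
      ∃ b, θ b - 1 ∈ I ^ (i + 1) ∧ θ a = θ b ^ m) :
    ∃ N : ℕ, 0 < N ∧ ∀ a, θ a - 1 ∈ I ^ i → (∃ x ∈ O, θ a - 1 = (N : S) * x) →
      ∃ b, θ b - 1 ∈ I ^ i ∧ θ a = θ b ^ m := by
  obtain ⟨N', hN', hP⟩ := h
  obtain ⟨k, hk, hkN⟩ := fin_order θ O hO N' hN'
  -- the lattices
  let B : AddSubgroup S :=
    { carrier := {x | ∃ a, θ a - 1 ∈ I ^ i ∧ x - (θ a - 1) ∈ I ^ (i + 1)}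
      zero_mem' := ⟨1, by simp, by simp⟩
      add_mem' := by
        rintro x y ⟨a, ha, hx⟩ ⟨b, hb, hy⟩
        refine ⟨a * b, (Dg θ (I ^ i)).mul_mem ha hb, ?_⟩
        have e : x + y - (θ (a * b) - 1) = (x - (θ a - 1)) + (y - (θ b - 1)) +
            (θ a - 1) * (-(θ b - 1)) := by
          rw [map_mul]; ring
        rw [e]
        refine (I ^ (i + 1)).add_mem ((I ^ (i + 1)).add_mem hx hy) ?_
        rw [pow_succ]
        exact Ideal.mul_mem_mul ha (I.neg_mem (hI _))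
      neg_mem' := by
        rintro x ⟨a, ha, hx⟩
        refine ⟨a⁻¹, (Dg θ (I ^ i)).inv_mem ha, ?_⟩
        have h1 : θ a * θ a⁻¹ = 1 := by rw [← map_mul, mul_inv_cancel, map_one]
        have e : -x - (θ a⁻¹ - 1) = -(x - (θ a - 1)) + (θ a - 1) * (θ a⁻¹ - 1) := by
          linear_combination -h1
        rw [e]
        refine (I ^ (i + 1)).add_mem ((I ^ (i + 1)).neg_mem hx) ?_
        rw [pow_succ]
        exact Ideal.mul_mem_mul ha (hI _) }
  have hfin : Module.Finite ℤ O.toAddSubgroup := ‹Module.Finite ℤ O›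
  obtain ⟨e, he, hlat⟩ := lat O.toAddSubgroup B
  refine ⟨N' * m * k * e, by positivity, ?_⟩
  rintro a ha ⟨x, hx, hax⟩
  have hB : (N' * m * k * e) • x ∈ B := by
    refine ⟨a, ha, ?_⟩
    rw [nsmul_eq_mul, hax, sub_self]
    exact Submodule.zero_mem _
  obtain ⟨b, hb, hb2⟩ := hlat x hx _ (by positivity) hB
  rw [nsmul_eq_mul] at hb2
  -- the power
  have hpc := pow_cong θ I hI i hb (N' * m * k)
  have hinv : θ (b ^ (N' * m * k)) * θ (b ^ (N' * m * k))⁻¹ = 1 := by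
    rw [← map_mul, mul_inv_cancel, map_one]
  obtain ⟨y, hy, hby⟩ := hkN (b ^ (N' * m))⁻¹
  have hbk : θ (b ^ (N' * m * k))⁻¹ - 1 = (N' : S) * y := by
    rw [← hby, ← map_pow, inv_pow, ← pow_mul]
  have hc1 : θ (a * (b ^ (N' * m * k))⁻¹) - 1 ∈ I ^ (i + 1) := by
    have e1 : θ (a * (b ^ (N' * m * k))⁻¹) - 1 =
        (((N' * m * k : ℕ) : S) * ((e : S) * x - (θ b - 1)) -
          (θ (b ^ (N' * m * k)) - 1 - ((N' * m * k : ℕ) : S) * (θ b - 1))) *
          θ (b ^ (N' * m * k))⁻¹ := by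
      rw [map_mul]
      have h1 : θ a = 1 + ((N' * m * k * e : ℕ) : S) * x := by rw [← hax]; ring
      rw [h1]
      push_cast
      push_cast at hinv
      linear_combination hinv
    rw [e1]
    exact Ideal.mul_mem_right _ _ (Submodule.sub_mem _ (Ideal.mul_mem_left _ _ hb2) hpc)
  have hc2 : ∃ z ∈ O, θ (a * (b ^ (N' * m * k))⁻¹) - 1 = (N' : S) * z := by
    refine ⟨((m * k * e : ℕ) : S) * x * θ (b ^ (N' * m * k))⁻¹ + y, ?_, ?_⟩
    · exact O.add_mem (O.mul_mem (O.mul_mem (natCast_mem _ _) hx) (hO _)) hy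
    · rw [map_mul]
      have h1 : θ a = 1 + ((N' * m * k * e : ℕ) : S) * x := by rw [← hax]; ring
      rw [h1]
      push_cast
      push_cast at hbk
      linear_combination hbk
  obtain ⟨d, hd1, hd2⟩ := hP _ hc1 hc2
  refine ⟨b ^ (N' * k) * d, ?_, ?_⟩
  · exact (Dg θ (I ^ i)).mul_mem ((Dg θ (I ^ i)).pow_mem hb _)
      (Ideal.pow_le_pow_right (Nat.le_succ i) hd1)
  · have e2 : a = a * (b ^ (N' * m * k))⁻¹ * b ^ (N' * m * k) := by group
    have e3 : θ (b ^ (N' * k) * d) ^ m = θ (b ^ (N' * m * k)) * θ d ^ m := by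
      rw [map_mul, mul_pow, ← map_pow, ← pow_mul]
      congr 3
      ring
    rw [e3, ← hd2, mul_comm, ← map_mul, inv_mul_cancel_right]

theorem core (O : Subring S) [Module.Finite ℤ O] (hO : ∀ a, θ a ∈ O) (I : Ideal S)
    (hI : ∀ a, θ a - 1 ∈ I) (m : ℕ) (hm : 0 < m) (r : ℕ) (hr : I ^ r = ⊥) :
    ∃ N : ℕ, 0 < N ∧ ∀ a, (∃ x ∈ O, θ a - 1 = (N : S) * x) → ∃ b, θ a = θ b ^ m := by
  have key : ∀ j i : ℕ, i + j = r →
      ∃ N : ℕ, 0 < N ∧ ∀ a, θ a - 1 ∈ I ^ i → (∃ x ∈ O, θ a - 1 = (N : S) * x) →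
      ∃ b, θ b - 1 ∈ I ^ i ∧ θ a = θ b ^ m := by
    intro j
    induction j with
    | zero =>
      intro i hi
      rw [add_zero] at hi
      refine ⟨1, one_pos, fun a ha _ => ⟨1, by simp, ?_⟩⟩
      rw [hi, hr, Ideal.mem_bot, sub_eq_zero] at ha
      rw [ha]
      simp
    | succ j ih =>
      intro i hi
      exact step θ O hO I hI m hm i (ih (i + 1) (by omega))
  obtain ⟨N, hN, h⟩ := key r 0 (by omega)
  refine ⟨N, hN, fun a ha => ?_⟩
  obtain ⟨b, -, hb⟩ := h a (by simp) ha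
  exact ⟨b, hb⟩

end

open scoped Matrix in
/-- **UNI** -/
theorem t_UNI : S_UNI := by
  intro A _ _ n θ hθ m hm
  let φ : Matrix (Fin n) (Fin n) ℤ →+* Matrix (Fin n) (Fin n) ℚ := (Int.castRingHom ℚ).mapMatrix
  have hφ : Function.Injective φ := by
    intro x y h
    ext i j
    have h1 := congrFun (congrFun h i) j
    simpa [φ] using h1
  let θ' : A →* Matrix (Fin n) (Fin n) ℚ := φ.toMonoidHom.comp θ
  have hcomm : ∀ x ∈ Set.range θ', ∀ y ∈ Set.range θ', x * y = y * x := by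
    rintro _ ⟨a, rfl⟩ _ ⟨b, rfl⟩
    rw [← map_mul, ← map_mul, mul_comm]
  let _ : CommRing (Algebra.adjoin ℚ (Set.range θ')) := Algebra.adjoinCommRingOfComm ℚ hcomm
  have hart : IsArtinianRing (Algebra.adjoin ℚ (Set.range θ')) :=
    IsArtinianRing.of_finite ℚ _
  let S := Algebra.adjoin ℚ (Set.range θ')
  let θS : A →* S :=
    { toFun := fun a => ⟨θ' a, Algebra.subset_adjoin ⟨a, rfl⟩⟩
      map_one' := Subtype.ext (map_one θ')
      map_mul' := fun a b => Subtype.ext (map_mul θ' a b) }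
  let O : Subring S := φ.range.comap S.val.toRingHom
  have hOfin : Module.Finite ℤ O := by
    have h1 : Module.Finite ℤ φ.range := Module.Finite.of_surjective
      (φ.rangeRestrict.toAddMonoidHom.toIntLinearMap) φ.rangeRestrict_surjective
    let f : O →+ φ.range :=
      { toFun := fun x => ⟨x.1.1, x.2⟩
        map_zero' := rfl
        map_add' := fun x y => rfl }
    refine Module.Finite.of_injective f.toIntLinearMap ?_
    intro x y h
    have h2 := congrArg Subtype.val h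
    exact Subtype.ext (Subtype.ext h2)
  have hO : ∀ a, θS a ∈ O := fun a => ⟨θ a, rfl⟩
  have hI : ∀ a, θS a - 1 ∈ nilradical S := by
    intro a
    rw [mem_nilradical]
    obtain ⟨k, hk⟩ := hθ a
    refine ⟨k, Subtype.ext ?_⟩
    have h1 : φ ((θ a - 1) ^ k) = 0 := by rw [hk, map_zero]
    rw [map_pow, map_sub, map_one] at h1
    exact h1
  obtain ⟨r, hr⟩ := IsArtinianRing.isNilpotent_nilradical (R := S)
  obtain ⟨N, hN, h⟩ := core θS O hO (nilradical S) hI m hm r hr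
  refine ⟨N, hN, fun a ha => ?_⟩
  choose x hx using ha
  have hax : θ a - 1 = N • Matrix.of x := by
    ext i j
    rw [hx i j]
    simp
  have hNQ : (N : ℚ) ≠ 0 := by exact_mod_cast hN.ne'
  have hax' : θ' a - 1 = (N : ℚ) • φ (Matrix.of x) := by
    have h1 := congrArg φ hax
    rw [map_sub, map_one, map_nsmul] at h1
    rw [Nat.cast_smul_eq_nsmul]
    exact h1
  let z : S := ((N : ℚ)⁻¹) • (θS a - 1)
  have hz : z.1 = φ (Matrix.of x) := by
    show ((N : ℚ)⁻¹) • (θ' a - 1) = φ (Matrix.of x)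
    rw [hax', smul_smul, inv_mul_cancel₀ hNQ, one_smul]
  obtain ⟨b, hb⟩ := h a ⟨z, ⟨Matrix.of x, hz.symm⟩, by
    rw [← nsmul_eq_mul, ← Nat.cast_smul_eq_nsmul ℚ]
    show _ = (N : ℚ) • (((N : ℚ)⁻¹) • (θS a - 1))
    rw [smul_smul, mul_inv_cancel₀ hNQ, one_smul]⟩
  refine ⟨b, hφ ?_⟩
  rw [map_pow]
  exact congrArg Subtype.val hb

end Pool.Agent.V5helper72.CA
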