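import Pool.Agent.V5helper35.CA.Stm2
import Pool.Agent.V5helper72.CA.UNI

/-!
# Project CA, jobs LAT and TERM
-/

set_option autoImplicit false

namespace Pool.Agent.V5helper72.CA

open Pool.Agent.V5helper35.CA

/-- **LAT** -/
theorem t_LAT : S_LAT := by
  intro s L m hm
  have h1 : Module.Finite ℤ (⊤ : AddSubgroup (Fin s → ℤ)) :=
    Module.Finite.of_surjective
      (AddMonoidHom.toIntLinearMap (AddSubgroup.topEquiv (G := Fin s → ℤ)).symm.toAddMonoidHom)
      (AddSubgroup.topEquiv (G := Fin s → ℤ)).symm.surjective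
  obtain ⟨e, he, h⟩ := lat (⊤ : AddSubgroup (Fin s → ℤ)) L
  refine ⟨m * e, by positivity, fun v hv hN => ?_⟩
  choose z hz using hN
  have hvz : v = (m * e) • z := by
    funext j
    rw [hz j]
    simp
  refine ⟨e • z, h z (AddSubgroup.mem_top z) (m * e) (by positivity) (by rwa [← hvz]), ?_⟩
  rw [hvz, mul_smul]

/-- submodules of the same rank with a torsion-free quotient -/
theorem eq_of_finrank {M : Type*} [AddCommGroup M] [Module.Finite ℤ M] {P N : Submodule ℤ M}
    (hPN : P ≤ N) (hr : Module.finrank ℤ N ≤ Module.finrank ℤ P)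
    (ht : ∀ a ∈ N, ∀ k : ℕ, 0 < k → k • a ∈ P → a ∈ P) : N ≤ P := by
  have h1 := Submodule.finrank_quotient_add_finrank (P.submoduleOf N)
  have h2 : Module.finrank ℤ (P.submoduleOf N) = Module.finrank ℤ P :=
    (Submodule.submoduleOfEquivOfLe hPN).finrank_eq
  have h3 : Module.finrank ℤ (N ⧸ P.submoduleOf N) = 0 := by omega
  rw [Module.finrank_eq_zero_iff_isTorsion] at h3
  intro a ha
  obtain ⟨⟨k, hk⟩, hk2⟩ := @h3 (Submodule.Quotient.mk ⟨a, ha⟩)
  have hk0 : k ≠ 0 := nonZeroDivisors.ne_zero hk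
  have h4 : k • a ∈ P := by
    have h5 : (Submodule.Quotient.mk (k • (⟨a, ha⟩ : N)) : N ⧸ P.submoduleOf N) = 0 := hk2
    rw [Submodule.Quotient.mk_eq_zero] at h5
    exact h5
  refine ht a ha k.natAbs (Int.natAbs_pos.2 hk0) ?_
  rcases Int.natAbs_eq k with h6 | h6
  · rw [h6] at h4
    rwa [natCast_zsmul] at h4
  · rw [h6, neg_smul, Submodule.neg_mem_iff] at h4
    rwa [natCast_zsmul] at h4

/-- **TERM** -/
theorem t_TERM : S_TERM := by
  intro Q _ _ H hanti ht hinf
  have hQ : Module.Finite ℤ (Additive Q) := by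
    rw [Module.Finite.iff_addGroup_fg]
    infer_instance
  let N : ℕ → Submodule ℤ (Additive Q) := fun c => AddSubgroup.toIntSubmodule (Subgroup.toAddSubgroup (H c))
  have hN : ∀ c (a : Q), Additive.ofMul a ∈ N c ↔ a ∈ H c := fun c a => Iff.rfl
  have hle : ∀ c d, c ≤ d → N d ≤ N c := fun c d h a ha => hanti h ha
  obtain ⟨c, hc⟩ : ∃ c, ∀ d, Module.finrank ℤ (N c) ≤ Module.finrank ℤ (N d) :=
    ⟨Function.argmin (fun c => Module.finrank ℤ (N c)), fun d =>
      Function.argmin_le (fun c => Module.finrank ℤ (N c)) d⟩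
  have hstep : ∀ d, c ≤ d → N d ≤ N (d + 1) := by
    intro d hd
    refine eq_of_finrank (hle _ _ (Nat.le_succ d)) ?_ ?_
    · exact (Submodule.finrank_mono (hle _ _ hd)).trans (hc _)
    · intro a ha k hk h
      exact ht d (Additive.toMul a) k hk ha h
  have hall : ∀ d, c ≤ d → N c ≤ N d := by
    intro d hd
    induction d, hd using Nat.le_induction with
    | base => exact le_rfl
    | succ d hd ih => exact ih.trans (hstep d hd)
  refine ⟨c, ?_⟩
  rw [eq_bot_iff, ← hinf, le_iInf_iff]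
  intro d a ha
  rcases le_total c d with h | h
  · exact hall d h ha
  · exact hanti h ha

end Pool.Agent.V5helper72.CA
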