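import Pool.Agent.V5helper35.CA.Stm3

/-!
# Project CA, job VIRT
-/

set_option autoImplicit false

namespace Pool.Agent.V5helper72.CA

open Pool.Agent.V5helper35.CA

/-- directed families contain lower bounds of finite families -/
theorem directed_fin {G : Type} [Group G] (𝒩 : Set (Subgroup G)) (hne : 𝒩.Nonempty)
    (hdir : ∀ N ∈ 𝒩, ∀ N' ∈ 𝒩, ∃ N'' ∈ 𝒩, N'' ≤ N ⊓ N') {ι : Type} [Finite ι]
    (f : ι → Subgroup G) (hf : ∀ i, f i ∈ 𝒩) : ∃ N ∈ 𝒩, ∀ i, N ≤ f i := by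
  classical
  have : Fintype ι := Fintype.ofFinite ι
  have key : ∀ s : Finset ι, ∃ N ∈ 𝒩, ∀ i ∈ s, N ≤ f i := by
    intro s
    induction s using Finset.induction_on with
    | empty => obtain ⟨N, hN⟩ := hne; exact ⟨N, hN, by simp⟩
    | insert i s _ ih =>
      obtain ⟨N, hN, h⟩ := ih
      obtain ⟨N', hN', h'⟩ := hdir N hN (f i) (hf i)
      refine ⟨N', hN', fun j hj => ?_⟩
      rcases Finset.mem_insert.1 hj with rfl | hj
      · exact h'.trans inf_le_right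
      · exact (h'.trans inf_le_left).trans (h j hj)
  obtain ⟨N, hN, h⟩ := key Finset.univ
  exact ⟨N, hN, fun i => h i (Finset.mem_univ i)⟩

/-- subgroups of finitely generated commutative subgroups -/
theorem fg_of_le {G : Type} [Group G] {A₀ A₁ : Subgroup G} (hFG : A₀.FG)
    (hcomm : ∀ a ∈ A₀, ∀ b ∈ A₀, a * b = b * a) (h : A₁ ≤ A₀) : A₁.FG := by
  let _ : CommGroup A₀ := { (inferInstance : Group A₀) with
    mul_comm := fun a b => Subtype.ext (hcomm a.1 a.2 b.1 b.2) }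
  have h1 : Group.FG A₀ := (Group.fg_iff_subgroup_fg A₀).2 hFG
  have h2 : Module.Finite ℤ (Additive A₀) := by
    rw [Module.Finite.iff_addGroup_fg]
    infer_instance
  have h3 : IsNoetherian ℤ (Additive A₀) := inferInstance
  let N : Submodule ℤ (Additive A₀) := AddSubgroup.toIntSubmodule (Subgroup.toAddSubgroup (A₁.subgroupOf A₀))
  have h4 : N.FG := IsNoetherian.noetherian N
  have h5 : (A₁.subgroupOf A₀).FG := by
    rw [Subgroup.fg_iff_add_fg]
    exact (Submodule.fg_iff_addSubgroup_fg N).1 h4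
  have h6 : Group.FG (A₁.subgroupOf A₀) := (Group.fg_iff_subgroup_fg _).2 h5
  have h7 : Group.FG A₁ := Group.fg_of_surjective (f := (Subgroup.subgroupOfEquivOfLe h).toMonoidHom)
    (Subgroup.subgroupOfEquivOfLe h).surjective
  exact (Group.fg_iff_subgroup_fg _).1 h7

/-- **VIRT** -/
theorem t_VIRT : S_VIRT := by
  intro G _ 𝒩 hnorm hne hdir H A A₀ B hA₀ hidx hFG hcomm hB hBidx
  -- (0)
  have sep : ∀ g : G, g ≠ 1 → ∃ N ∈ 𝒩, g ∉ N := by
    intro g hg
    have hz : (Subgroup.zpowers g).FG := ⟨{g}, by simp [Subgroup.zpowers_eq_closure]⟩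
    have hzc : ∀ a ∈ Subgroup.zpowers g, ∀ b ∈ Subgroup.zpowers g, a * b = b * a := by
      rintro _ ⟨i, rfl⟩ _ ⟨j, rfl⟩
      show g ^ i * g ^ j = g ^ j * g ^ i
      rw [← zpow_add, ← zpow_add, add_comm]
    rcases Nat.eq_zero_or_pos (orderOf g) with h0 | h0
    · obtain ⟨N, hN, h⟩ := H _ hz hzc 2 two_pos
      refine ⟨N, hN, fun hgN => ?_⟩
      obtain ⟨b, ⟨i, hi⟩, hb⟩ := h g (Subgroup.mem_zpowers g) hgN
      have hi' : g ^ i = b := hi
      have h1 : g ^ (i * 2 - 1) = 1 := by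
        rw [zpow_sub, zpow_mul, hi', zpow_one, zpow_ofNat, ← hb, mul_inv_cancel]
      rw [← orderOf_dvd_iff_zpow_eq_one, h0] at h1
      omega
    · obtain ⟨N, hN, h⟩ := H _ hz hzc (orderOf g) h0
      refine ⟨N, hN, fun hgN => ?_⟩
      obtain ⟨b, ⟨i, hi⟩, hb⟩ := h g (Subgroup.mem_zpowers g) hgN
      have hi' : g ^ i = b := hi
      apply hg
      rw [hb, ← hi', ← zpow_natCast, ← zpow_mul, mul_comm, zpow_mul, zpow_natCast, pow_orderOf_eq_one,
        one_zpow]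
  -- (1)
  have hfi : ((A₀ ⊓ B).subgroupOf A).FiniteIndex := ⟨Subgroup.relIndex_inf_ne_zero hidx hBidx⟩
  obtain ⟨C, hC⟩ : ∃ C : Subgroup A, C = ((A₀ ⊓ B).subgroupOf A).normalCore := ⟨_, rfl⟩
  have hCn : C.Normal := by rw [hC]; infer_instance
  have hCf : C.FiniteIndex := by rw [hC]; infer_instance
  have hCle : ∀ x ∈ C, (x : G) ∈ A₀ ∧ (x : G) ∈ B := by
    intro x hx
    rw [hC] at hx
    have h1 := Subgroup.normalCore_le _ hx
    rw [Subgroup.mem_subgroupOf] at h1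
    exact h1
  obtain ⟨A₁, hA₁⟩ : ∃ A₁ : Subgroup G, A₁ = C.map A.subtype := ⟨_, rfl⟩
  have memA₁ : ∀ x : G, x ∈ A₁ ↔ ∃ h : x ∈ A, (⟨x, h⟩ : A) ∈ C := by
    intro x
    rw [hA₁, Subgroup.mem_map]
    constructor
    · rintro ⟨y, hy, rfl⟩
      exact ⟨y.2, hy⟩
    · rintro ⟨h, hx⟩
      exact ⟨⟨x, h⟩, hx, rfl⟩
  have hA₁A₀ : A₁ ≤ A₀ := fun x hx => by
    obtain ⟨h, hx⟩ := (memA₁ x).1 hx
    exact (hCle _ hx).1
  have hA₁A : A₁ ≤ A := fun x hx => ((memA₁ x).1 hx).1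
  have hA₁B : A₁ ≤ B := fun x hx => by
    obtain ⟨h, hx⟩ := (memA₁ x).1 hx
    exact (hCle _ hx).2
  have hA₁FG : A₁.FG := fg_of_le hFG hcomm hA₁A₀
  have hm : 0 < C.index := Nat.pos_of_ne_zero hCf.index_ne_zero
  have hpow : ∀ x ∈ A, x ^ C.index ∈ A₁ := by
    intro x hx
    rw [memA₁]
    exact ⟨A.pow_mem hx _, Subgroup.pow_index_mem C (⟨x, hx⟩ : A)⟩
  -- (2)
  have two : ∀ a ∈ A, a ∉ A₁ → ∃ N ∈ 𝒩, ∀ x ∈ A₁, a * x ∉ N := by
    intro a haA haA₁
    by_cases hc : ∀ b ∈ A₁, a * b = b * a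
    · obtain ⟨S, hS⟩ : ∃ S : Set G, S = insert a (A₁ : Set G) := ⟨_, rfl⟩
      have hScomm : ∀ x ∈ S, ∀ y ∈ S, x * y = y * x := by
        rw [hS]
        rintro x (rfl | hx) y (rfl | hy)
        · rfl
        · exact hc y hy
        · exact (hc x hx).symm
        · exact hcomm x (hA₁A₀ hx) y (hA₁A₀ hy)
      have hle : Subgroup.closure S ≤ Subgroup.centralizer S := by
        rw [Subgroup.closure_le]
        intro x hx
        rw [SetLike.mem_coe, Subgroup.mem_centralizer_iff]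
        intro y hy
        exact hScomm y hy x hx
      have hCl : ∀ x ∈ Subgroup.closure S, ∀ y ∈ Subgroup.closure S, x * y = y * x := by
        intro x hx y hy
        have h1 : Subgroup.closure S ≤ Subgroup.centralizer (Subgroup.closure S : Set G) := by
          rw [Subgroup.centralizer_closure]
          exact hle
        exact (Subgroup.mem_centralizer_iff.1 (h1 hy)) x hx
      have hClA : Subgroup.closure S ≤ A := by
        rw [Subgroup.closure_le, hS]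
        rintro x (rfl | hx)
        · exact haA
        · exact hA₁A hx
      have hClFG : (Subgroup.closure S).FG := by
        have e : Subgroup.closure S = A₁ ⊔ Subgroup.closure {a} := by
          rw [hS, Set.insert_eq, Subgroup.closure_union, Subgroup.closure_eq, sup_comm]
        rw [e]
        exact hA₁FG.sup ⟨{a}, by simp⟩
      obtain ⟨N, hN, h⟩ := H _ hClFG hCl C.index hm
      refine ⟨N, hN, fun x hx hxN => haA₁ ?_⟩
      have h1 : a * x ∈ Subgroup.closure S := by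
        refine Subgroup.mul_mem _ (Subgroup.subset_closure ?_) (Subgroup.subset_closure ?_)
        · rw [hS]; exact Set.mem_insert _ _
        · rw [hS]; exact Set.mem_insert_of_mem _ hx
      obtain ⟨b, hb, hb2⟩ := h _ h1 hxN
      have h2 : a * x ∈ A₁ := by
        rw [hb2]
        exact hpow b (hClA hb)
      have h3 := A₁.mul_mem h2 (A₁.inv_mem hx)
      rwa [mul_inv_cancel_right] at h3
    · push Not at hc
      obtain ⟨b, hb, hab⟩ := hc
      obtain ⟨N, hN, hg⟩ := sep (a * b * a⁻¹ * b⁻¹) (by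
        intro h
        apply hab
        have h1 : a * b = a * b * a⁻¹ * b⁻¹ * (b * a) := by group
        rw [h1, h, one_mul])
      refine ⟨N, hN, fun x hx hxN => hg ?_⟩
      have hNn := hnorm N hN
      have hxb : x * b = b * x := hcomm x (hA₁A₀ hx) b (hA₁A₀ hb)
      have e : a * b * a⁻¹ * b⁻¹ = (a * x) * (b * (a * x)⁻¹ * b⁻¹) := by
        have h1 : (a * x) * (b * (a * x)⁻¹ * b⁻¹) = a * (x * b) * x⁻¹ * a⁻¹ * b⁻¹ := by group
        rw [h1, hxb]
        group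
      rw [e]
      exact N.mul_mem hxN (hNn.conj_mem _ (N.inv_mem hxN) b)
  -- (3)
  have hfin : Finite (A ⧸ C) := Subgroup.finite_quotient_of_finiteIndex
  have hq : ∀ q : A ⧸ C, ∃ N ∈ 𝒩, ((q.out : A) : G) ∉ A₁ → ∀ x ∈ A₁, ((q.out : A) : G) * x ∉ N := by
    intro q
    by_cases h : ((q.out : A) : G) ∈ A₁
    · obtain ⟨N, hN⟩ := hne
      exact ⟨N, hN, fun h' => absurd h h'⟩
    · obtain ⟨N, hN, h2⟩ := two _ (q.out : A).2 h
      exact ⟨N, hN, fun _ => h2⟩
  choose f hf hf2 using hq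
  obtain ⟨N, hN, hNf⟩ := directed_fin 𝒩 hne hdir f hf
  refine ⟨N, hN, ?_⟩
  rintro y ⟨hyA, hyN⟩
  apply hA₁B
  by_contra hy
  obtain ⟨q, hqdef⟩ : ∃ q : A ⧸ C, q = QuotientGroup.mk ⟨y, hyA⟩ := ⟨_, rfl⟩
  have h1 : (q.out : A)⁻¹ * ⟨y, hyA⟩ ∈ C := by
    rw [← QuotientGroup.eq, QuotientGroup.out_eq', hqdef]
  have h2 : ((q.out : A) : G)⁻¹ * y ∈ A₁ := by
    rw [memA₁]
    exact ⟨A.mul_mem (A.inv_mem (q.out : A).2) hyA, h1⟩
  have h3 : ((q.out : A) : G) ∉ A₁ := by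
    intro h
    apply hy
    have := A₁.mul_mem h h2
    rwa [mul_inv_cancel_left] at this
  apply hf2 q h3 _ h2
  rw [mul_inv_cancel_left]
  exact hNf q hyN

end Pool.Agent.V5helper72.CA
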